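import Pool.Agent.helper44.MDG.Spec

set_option autoImplicit false

namespace Pool.Agent.helper44.MDG

theorem CPK_col_succ (e : Bool) (i : ℕ) : col e (i + 1) = !(col e i) := by
  unfold col
  rcases Nat.mod_two_eq_zero_or_one i with h | h
  · rw [if_neg (by omega), if_pos h]
  · rw [if_pos (by omega), if_neg (by omega)]
    simp

theorem CPK_mono {n r : ℕ} {s : ℕ → ℕ} {e : Bool} {c : Fin n → Bool} (h : CRuns n r s e c) :
    ∀ d i, i + d ≤ r → s i ≤ s (i + d) := by
  intro d
  induction d with
  | zero => intro i _; exact le_rfl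
  | succ d ih =>
    intro i hi
    have h1 := ih i (by omega)
    have h2 := h.len (i + d) (by omega)
    have e1 : i + (d + 1) = i + d + 1 := by omega
    rw [e1]
    omega

theorem CPK_mono' {n r : ℕ} {s : ℕ → ℕ} {e : Bool} {c : Fin n → Bool} (h : CRuns n r s e c)
    (i j : ℕ) (hij : i ≤ j) (hj : j ≤ r) : s i ≤ s j := by
  have := CPK_mono h (j - i) i (by omega)
  have e1 : i + (j - i) = j := by omega
  rwa [e1] at this

theorem CPK_find {n r : ℕ} {s : ℕ → ℕ} {e : Bool} {c : Fin n → Bool} (h : CRuns n r s e c)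
    (x : ℕ) : ∀ k, x < s k → ∃ i, i < k ∧ s i ≤ x ∧ x < s (i + 1) := by
  intro k
  induction k with
  | zero =>
    intro hx
    have := h.s0
    omega
  | succ k ih =>
    intro hx
    rcases Nat.lt_or_ge x (s k) with h1 | h1
    · obtain ⟨i, hi, hi2⟩ := ih h1
      exact ⟨i, by omega, hi2⟩
    · exact ⟨k, by omega, h1, hx⟩

theorem CPK_uniq {n r : ℕ} {s : ℕ → ℕ} {e : Bool} {c : Fin n → Bool} (h : CRuns n r s e c)
    (x i k : ℕ) (hi : i < r) (hk : k < r) (h1 : s i ≤ x) (h2 : x < s (i + 1)) (h3 : s k ≤ x)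
    (h4 : x < s (k + 1)) : i = k := by
  rcases Nat.lt_trichotomy i k with hlt | heq | hgt
  · have := CPK_mono' h (i + 1) k (by omega) (by omega)
    omega
  · exact heq
  · have := CPK_mono' h (k + 1) i (by omega) (by omega)
    omega

theorem CPK_low {n r : ℕ} {s : ℕ → ℕ} {e : Bool} {c : Fin n → Bool} (h : CRuns n r s e c)
    (x i k d : ℕ) (hi : i < r) (hk : k < r) (hd : 1 ≤ d) (hd2 : d ≤ 2) (h1 : s i + 2 ≤ x)
    (h2 : x + 3 ≤ s (i + 1)) : x ≠ (s (k + 1) - d) % n := by
  intro hx
  have hkn : s (k + 1) ≤ n := by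
    have := CPK_mono' h (k + 1) r (by omega) le_rfl
    rwa [h.sr] at this
  have hlen := h.len k hk
  rw [Nat.mod_eq_of_lt (by omega)] at hx
  have := CPK_uniq h x i k hi hk (by omega) (by omega) (by omega) (by omega)
  subst this
  omega

theorem CPK_high {n r : ℕ} {s : ℕ → ℕ} {e : Bool} {c : Fin n → Bool} (h : CRuns n r s e c)
    (x i k d : ℕ) (hi : i < r) (hk : k < r) (hd2 : d ≤ 1) (h1 : s i + 2 ≤ x)
    (h2 : x + 3 ≤ s (i + 1)) : x ≠ (s (k + 1) + d) % n := by
  intro hx
  have hkn : s (k + 1) ≤ n := by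
    have := CPK_mono' h (k + 1) r (by omega) le_rfl
    rwa [h.sr] at this
  have hlen := h.len k hk
  rcases Nat.lt_or_ge (k + 1) r with hlt | hge
  · have hlen2 := h.len (k + 1) hlt
    have hkn2 : s (k + 1 + 1) ≤ n := by
      have := CPK_mono' h (k + 1 + 1) r (by omega) le_rfl
      rwa [h.sr] at this
    rw [Nat.mod_eq_of_lt (by omega)] at hx
    have := CPK_uniq h x i (k + 1) hi hlt (by omega) (by omega) (by omega) (by omega)
    subst this
    omega
  · have hkr : k + 1 = r := by omega
    rw [hkr, h.sr, Nat.add_mod_left, Nat.mod_eq_of_lt (by omega)] at hx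
    omega

theorem CPK_ne {n r : ℕ} {s : ℕ → ℕ} {e : Bool} {c : Fin n → Bool} (h : CRuns n r s e c)
    (p : Bool) (x i k : ℕ) (hi : i < r) (hk : k < r) (h1 : s i + 2 ≤ x)
    (h2 : x + 3 ≤ s (i + 1)) : x ≠ A1 s e p k % n ∧ x ≠ A2 s e p k % n := by
  unfold A1 A2
  constructor
  · split_ifs
    · exact CPK_low h x i k 1 hi hk le_rfl (by omega) h1 h2
    · exact CPK_high h x i k 0 hi hk (by omega) h1 h2
  · split_ifs
    · exact CPK_low h x i k 2 hi hk (by omega) le_rfl h1 h2
    · exact CPK_high h x i k 1 hi hk le_rfl h1 h2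

theorem CPK : CPK_stmt := by
  intro n r s e p c h a1 a2 h1 h2
  have hr := h.pos
  have hr2 : 2 ≤ r := by
    have := h.even
    omega
  have hle : ∀ i, i < r → s (i + 1) ≤ n := by
    intro i hi
    have := CPK_mono' h (i + 1) r (by omega) le_rfl
    rwa [h.sr] at this
  have hn7 : 7 ≤ n := by
    have a := h.len 0 hr
    have b := hle 0 hr
    omega
  obtain ⟨F, hF⟩ : ∃ F : ℕ → Fin n, ∀ x, x < n → (F x).val = x := by
    refine ⟨fun x => if hx : x < n then ⟨x, hx⟩ else ⟨0, by omega⟩, ?_⟩
    intro x hx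
    simp [hx]
  obtain ⟨K, hK⟩ : ∃ K : Finset (Fin n), K = ((Finset.range r).filter (fun i => col e i = p)).biUnion
      (fun i => (Finset.range ((s (i + 1) - s i - 4 + 2) / 3)).image
        (fun j => F (min (s i + 3 + 3 * j) (s (i + 1) - 4)))) := ⟨_, rfl⟩
  have hmem : ∀ v ∈ K, ∃ i, i < r ∧ col e i = p ∧ s i + 3 ≤ v.val ∧ v.val + 4 ≤ s (i + 1) := by
    intro v hv
    rw [hK, Finset.mem_biUnion] at hv
    obtain ⟨i, hi, hv⟩ := hv
    rw [Finset.mem_filter, Finset.mem_range] at hi
    rw [Finset.mem_image] at hv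
    obtain ⟨j, hj, hv⟩ := hv
    have hlen := h.len i hi.1
    have hin := hle i hi.1
    have hval : v.val = min (s i + 3 + 3 * j) (s (i + 1) - 4) := by
      rw [← hv]
      exact hF _ (by omega)
    exact ⟨i, hi.1, hi.2, by omega, by omega⟩
  refine ⟨K, ?_, ?_, ?_, ?_⟩
  · intro v hv
    obtain ⟨i, hi, hc, hv1, hv2⟩ := hmem v hv
    rw [h.colour i hi v (by omega) (by omega), hc]
  · intro v hv u hu
    obtain ⟨i, hi, hc, hv1, hv2⟩ := hmem v hv
    have hin := hle i hi
    simp only [NC, Finset.mem_filter, Finset.mem_univ, true_and] at hu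
    have hu1 : s i + 2 ≤ u.val := by omega
    have hu2 : u.val + 3 ≤ s (i + 1) := by omega
    refine ⟨?_, ?_⟩
    · rw [h.colour i hi u (by omega) (by omega), hc]
    · intro k
      obtain ⟨q1, q2⟩ := CPK_ne h p u.val i k.val hi k.2 hu1 hu2
      constructor
      · intro hk
        apply q1
        rw [← h1 k, hk]
      · intro hk
        apply q2
        rw [← h2 k, hk]
  · intro u hu
    obtain ⟨i, hi, hu1, hu2⟩ := CPK_find h u.val r (by rw [h.sr]; exact u.2)
    have hc : col e i = p := by
      rw [← hu, h.colour i hi u hu1 hu2]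
    have hlen := h.len i hi
    have hin := hle i hi
    by_cases b1 : u.val < s i + 2
    · right
      rcases Nat.eq_zero_or_pos i with h0 | hpos
      · subst h0
        have hs0 := h.s0
        have hcr : ¬ (col e (r - 1) = p) := by
          rw [← hc]
          unfold col
          have := h.even
          rw [if_neg (by omega), if_pos (by omega)]
          cases e <;> simp
        refine ⟨⟨r - 1, by omega⟩, ?_⟩
        have e1 := h1 ⟨r - 1, by omega⟩
        have e2 := h2 ⟨r - 1, by omega⟩
        have hrr : r - 1 + 1 = r := by omega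
        simp only [A1, A2, if_neg hcr, hrr, h.sr] at e1 e2
        rw [Nat.mod_self] at e1
        rw [Nat.add_mod_left, Nat.mod_eq_of_lt (by omega)] at e2
        rcases Nat.eq_zero_or_pos u.val with hz | hz
        · left
          apply Fin.ext
          rw [e1, hz]
        · right
          apply Fin.ext
          rw [e2]
          omega
      · obtain ⟨k, rfl⟩ : ∃ k, i = k + 1 := ⟨i - 1, by omega⟩
        have hck : ¬ (col e k = p) := by
          rw [CPK_col_succ] at hc
          rw [← hc]
          cases col e k <;> simp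
        refine ⟨⟨k, by omega⟩, ?_⟩
        have e1 := h1 ⟨k, by omega⟩
        have e2 := h2 ⟨k, by omega⟩
        simp only [A1, A2, if_neg hck] at e1 e2
        rw [Nat.mod_eq_of_lt (by omega)] at e1 e2
        by_cases hz : u.val = s (k + 1)
        · left
          apply Fin.ext
          rw [e1, hz]
        · right
          apply Fin.ext
          rw [e2]
          omega
    · by_cases b2 : s (i + 1) < u.val + 3
      · right
        refine ⟨⟨i, hi⟩, ?_⟩
        have e1 := h1 ⟨i, hi⟩
        have e2 := h2 ⟨i, hi⟩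
        simp only [A1, A2, if_pos hc] at e1 e2
        rw [Nat.mod_eq_of_lt (by omega)] at e1 e2
        by_cases hz : u.val = s (i + 1) - 1
        · left
          apply Fin.ext
          rw [e1, hz]
        · right
          apply Fin.ext
          rw [e2]
          omega
      · left
        refine ⟨F (min (s i + 3 + 3 * ((u.val - s i - 2) / 3)) (s (i + 1) - 4)), ?_, ?_⟩
        · rw [hK, Finset.mem_biUnion]
          refine ⟨i, ?_, ?_⟩
          · rw [Finset.mem_filter, Finset.mem_range]
            exact ⟨hi, hc⟩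
          · rw [Finset.mem_image]
            refine ⟨(u.val - s i - 2) / 3, ?_, rfl⟩
            rw [Finset.mem_range]
            omega
        · have hval := hF (min (s i + 3 + 3 * ((u.val - s i - 2) / 3)) (s (i + 1) - 4)) (by omega)
          simp only [NC, Finset.mem_filter, Finset.mem_univ, true_and]
          rw [hval]
          omega
  · rw [hK]
    refine Finset.card_biUnion_le.trans ?_
    refine Finset.sum_le_sum fun i _ => ?_
    refine Finset.card_image_le.trans ?_
    rw [Finset.card_range]

end Pool.Agent.helper44.MDG
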